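import Mathlib
import Pool.Agent.H28.Clu.Final
import Pool.Agent.H93.Clu.Laurent

/-!
The coefficients of the minimal linear recurrences of the T-system of a bipartite quiver with
commuting adjacency matrices (in particular of every affinite quiver) belong to the upper cluster
algebra.
-/

namespace Pool.Agent.Results.MP_70eb87_co.RecurrenceCoefficients

open Pool.Agent.H28.Clu

/-- Let a finite quiver without loops, directed 2-cycles and multiple arrows, with a bipartition
`ε : V → {0, 1}`, be such that the adjacency matrices of the graphs formed by the arrows leaving
colour `0` and colour `1` commute (for instance an affinite quiver). Then its T-system has a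
solution `T` with initial values the variables, the substitutions `x_v ↦ T_v(s + ε_v)`, `s` even,
are well defined on rational functions, and for every vertex `v` and every step `i`, if `J` are the
coefficients of recurrence data at `v` with step `i` and `N` minimal, then every `J_k` belongs to
the upper cluster algebra, and in particular is a Laurent polynomial with integer coefficients in
the values of the T-system at any fixed time. -/
theorem result {V : Type*} [Fintype V] [DecidableEq V] (arr : V → V → Prop) [DecidableRel arr]
    (ε : V → ℤ) (h : IsQuiv arr ε) :
    (∃ T, IsT arr ε (xx V) T) ∧ ∀ T, IsT arr ε (xx V) T →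
      (∀ s : ℤ, Even s → ∃ σ : KK V →+* KK V, ∀ v, σ (xx V v) = T v (s + ε v)) ∧
      ∀ (v : V) (i N : ℕ) (J : ℕ → KK V), RecData ε T v i N J →
        (∀ N' J', RecData ε T v i N' J' → N ≤ N') → ∀ k ≤ N + 1,
          J k ∈ upper (exMat arr) ∧ ∀ s : ℤ, Even s → J k ∈ laurent (fun u => T u (s + ε u)) :=
  full (fun B hB p v => Pool.Agent.H93.Clu.laurent_phenomenon B hB p v) h

end Pool.Agent.Results.MP_70eb87_co.RecurrenceCoefficients
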